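import Mathlib
import Pool.Agent.Y268.D3.Stm

/-! Pairs of rotations in both orders. -/

open scoped ComplexOrder InnerProductSpace ComplexConjugate Topology
open Finset Filter

noncomputable section

namespace Pool.Agent.Y510.D3

open H759R2.Kad H711R2.KG Y268.D3

section

variable {B : Type} [CStarAlgebra B]

/-- The mean of a bounded family of functionals. -/
def rb (E : Mean (unitary B)) (φ : unitary B → (B →L[ℂ] ℂ)) (C : ℝ) (h : ∀ u, ‖φ u‖ ≤ C) :
    B →L[ℂ] ℂ :=
  LinearMap.mkContinuous
    { toFun := fun z => E.E (fun u => φ u z)
      map_add' := fun x y => by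
        rw [← E.add']
        congr 1
        ext u
        exact map_add (φ u) x y
      map_smul' := fun c x => by
        rw [RingHom.id_apply, smul_eq_mul, ← E.const_mul]
        congr 1
        ext u
        rw [map_smul, smul_eq_mul] } C fun z =>
    E.bd _ _ fun u => ((φ u).le_opNorm z).trans (mul_le_mul_of_nonneg_right (h u) (norm_nonneg z))

lemma rb_apply (E : Mean (unitary B)) (φ : unitary B → (B →L[ℂ] ℂ)) (C : ℝ) (h : ∀ u, ‖φ u‖ ≤ C)
    (z : B) : rb E φ C h z = E.E (fun u => φ u z) := rfl

lemma swap_E (E E' : Mean (unitary B)) (f : unitary B × unitary B → ℂ) :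
    ((E'.prod E).map Prod.swap).E f = E'.E (fun k => E.E (fun h => f (h, k))) := rfl

end

theorem prove_pair : S_pair := by
  intro B _ τ K _ _ _ w γ _ q E E' Ec hS
  constructor
  · refine
      { form := hS.form
        col := ?_
        dix1 := ?_
        dix2 := ?_
        orthl := ?_
        orthr := ?_
        st := hS.st }
    · intro ξ η
      rw [Mean.prod_E]
      simp only [Mean.const]
      exact hS.col ξ η
    · intro φ y
      rw [Mean.prod_E]
      simp only [Mean.const]
      exact hS.dix.dixr φ y
    · intro φ C _ y
      rw [Mean.prod_E, Mean.prod_E]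
      simp only [Mean.const]
      rw [← Mean.const_mul]
      congr 1
      ext u
      exact hS.dix'.dixr (φ u) y
    · intro S E'' y φ C hy hφ
      rw [Mean.prod_E]
      have h : (fun u : unitary B => E'.E (fun v => E''.E (fun s =>
          τ (y u s * star (v : B)) * φ u s (v : B)))) = fun _ => 0 := by
        ext u
        exact hS.dix'.orthl S E'' (y u) (φ u) C (hy u) (hφ u)
      change E.E (fun u : unitary B => E'.E (fun v => E''.E (fun s =>
          τ (y u s * star (v : B)) * φ u s (v : B)))) = 0
      rw [h, Mean.const]
    · intro S E'' y φ C hy hφ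
      rw [Mean.prod_E]
      have h : (fun u : unitary B => E'.E (fun v => E''.E (fun s =>
          τ (y u s * (v : B)) * φ u s (star (v : B))))) = fun _ => 0 := by
        ext u
        exact hS.dix'.orthr S E'' (y u) (φ u) C (hy u) (hφ u)
      change E.E (fun u : unitary B => E'.E (fun v => E''.E (fun s =>
          τ (y u s * (v : B)) * φ u s (star (v : B))))) = 0
      rw [h, Mean.const]
  · refine
      { form := hS.form
        col := ?_
        dix1 := ?_
        dix2 := ?_
        orthl := ?_
        orthr := ?_
        st := hS.st }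
    · intro ξ η
      rw [swap_E]
      change E'.E (fun _ => E.E (fun h => q (w (h : B) ξ) (w (h : B) η))) = q ξ η
      rw [Mean.const]
      exact hS.col ξ η
    · intro φ y
      rw [swap_E]
      change E'.E (fun _ => E.E (fun h => φ ((h : B) * y * star (h : B)))) = τ y * φ 1
      rw [Mean.const]
      exact hS.dix.dixr φ y
    · intro φ C hφ y
      rw [swap_E, swap_E]
      change E'.E (fun k => rb E φ C hφ ((k : B) * y * star (k : B))) =
        τ y * E'.E (fun _ => rb E φ C hφ 1)
      rw [Mean.const]
      exact hS.dix'.dixr (rb E φ C hφ) y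
    · intro S E'' y φ C hy hφ
      rw [swap_E]
      exact hS.dix'.orthl (unitary B × S) (E.prod E'') (fun p => y p.1 p.2) (fun p => φ p.1 p.2) C
        (fun p => hy p.1 p.2) (fun p => hφ p.1 p.2)
    · intro S E'' y φ C hy hφ
      rw [swap_E]
      exact hS.dix'.orthr (unitary B × S) (E.prod E'') (fun p => y p.1 p.2) (fun p => φ p.1 p.2) C
        (fun p => hy p.1 p.2) (fun p => hφ p.1 p.2)

end Pool.Agent.Y510.D3
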